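import Pool.Agent.helper7.DF.Spec

/-!
# The type II part of VAU
-/

set_option autoImplicit false

open Finset

namespace Pool.Agent.DFO

open Pool.Agent.LDH (ee)
open Pool.Agent.helper85.BVP (tau)
open Pool.Agent.FI (al)

theorem VAU_al_le (V l : ℕ) : |al V l| ≤ tau l := by
  unfold Pool.Agent.FI.al Pool.Agent.helper85.BVP.tau
  refine (Finset.abs_sum_le_sum_abs _ _).trans ?_
  calc ∑ d ∈ l.divisors with V < d, |(ArithmeticFunction.moebius d : ℝ)|
      ≤ ∑ d ∈ l.divisors with V < d, (1 : ℝ) := by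
        refine Finset.sum_le_sum fun d _ => ?_
        have h := ArithmeticFunction.abs_moebius_le_one (n := d)
        have h2 : ((|ArithmeticFunction.moebius d| : ℤ) : ℝ) ≤ 1 := by exact_mod_cast h
        rw [Int.cast_abs] at h2
        exact h2
    _ ≤ (#l.divisors : ℝ) := by
        rw [Finset.sum_const, nsmul_eq_mul, mul_one]
        exact_mod_cast Finset.card_filter_le _ _

theorem VAU_al_zero (V l : ℕ) (h : l ≤ V) : al V l = 0 := by
  unfold Pool.Agent.FI.al
  refine Finset.sum_eq_zero fun d hd => ?_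
  rw [Finset.mem_filter, Nat.mem_divisors] at hd
  exfalso
  have := Nat.le_of_dvd (Nat.pos_of_ne_zero hd.1.2) hd.1.1
  omega

theorem VAU_dyadic (f : ℕ → ℂ) (U I : ℕ) (E : ℝ)
    (h : ∀ i < I, ‖∑ m ∈ Ioc (U * 2 ^ i) (2 * (U * 2 ^ i)), f m‖ ≤ E) :
    ‖∑ m ∈ Ioc U (U * 2 ^ I), f m‖ ≤ I * E := by
  induction I with
  | zero => simp
  | succ I ih =>
    have h1 := ih fun i hi => h i (by omega)
    have h2 := h I (by omega)
    have e : U * 2 ^ (I + 1) = 2 * (U * 2 ^ I) := by ring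
    have hle : U ≤ U * 2 ^ I := Nat.le_mul_of_pos_right _ (pow_pos (by norm_num) I)
    have hs : ∑ m ∈ Ioc U (2 * (U * 2 ^ I)), f m =
        ∑ m ∈ Ioc U (U * 2 ^ I), f m + ∑ m ∈ Ioc (U * 2 ^ I) (2 * (U * 2 ^ I)), f m := by
      rw [← Finset.sum_union]
      · rw [Finset.Ioc_union_Ioc_eq_Ioc hle (by omega)]
      · rw [Finset.disjoint_left]
        intro y hy1 hy2
        rw [Finset.mem_Ioc] at hy1 hy2
        omega
    rw [e, hs]
    refine (norm_add_le _ _).trans ?_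
    push_cast
    linarith

theorem VAU_three (hT : TII_stmt) (A : ℕ) : ∃ (δ C : ℝ) (B : ℕ), 0 < δ ∧ δ ≤ 1 / 4 ∧ 1 ≤ C ∧
    ∀ (k U V a b : ℕ) (x : ℝ), 2 ≤ k → 1 ≤ U → 1 ≤ V → (k : ℝ) ^ (1 / 4 : ℝ) ≤ U →
      ((k / V : ℕ) : ℝ) ≤ (k : ℝ) ^ (3 / 4 : ℝ) → a ≤ b → b ≤ k → (k : ℝ) ≤ x → x ≤ (k : ℝ) ^ A →
      ‖∑ m ∈ Ioc U (k / V), (ArithmeticFunction.vonMangoldt m : ℂ) *
        ∑ l ∈ Ioc (a / m) (b / m), (al V l : ℂ) * ee (x / (m * l))‖ ≤
        C * k * (1 + Real.log k) ^ B * ((k / x) ^ (1 / 2 : ℝ) + (k : ℝ) ^ (-δ)) := by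
  obtain ⟨δ, C, B, hδ, hδ4, hC, h⟩ := hT A
  refine ⟨δ, 2 * C, B + 1, hδ, hδ4, by linarith, ?_⟩
  intro k U V a b x hk hU hV hkU hkV hab hbk hkx hxA
  have hk2 : (2 : ℝ) ≤ k := by exact_mod_cast hk
  have hkpos : (0 : ℝ) < k := by linarith
  have hlog2 : (1 : ℝ) / 2 ≤ Real.log 2 := by
    have := Real.log_two_gt_d9
    linarith
  have hlogk : Real.log 2 ≤ Real.log k := Real.log_le_log (by norm_num) hk2
  have hL0 : 0 < Real.log k := by linarith
  obtain ⟨E, hE⟩ : ∃ E : ℝ, E = C * k * (1 + Real.log k) ^ B *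
      ((k / x) ^ (1 / 2 : ℝ) + (k : ℝ) ^ (-δ)) := ⟨_, rfl⟩
  have hx0 : 0 < x := by linarith
  have hE0 : 0 ≤ E := by rw [hE]; positivity
  obtain ⟨f, hf⟩ : ∃ f : ℕ → ℂ, f = fun m => (ArithmeticFunction.vonMangoldt m : ℂ) *
      ∑ l ∈ Ioc (a / m) (b / m), (al V l : ℂ) * ee (x / (m * l)) := ⟨_, rfl⟩
  have hzero : ∀ m : ℕ, k / V < m → f m = 0 := by
    intro m hm
    rw [hf]
    simp only
    rw [Finset.sum_eq_zero, mul_zero]
    intro l hl
    rw [Finset.mem_Ioc] at hl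
    have hm0 : 0 < m := lt_of_le_of_lt (Nat.zero_le _) hm
    have h1 : k < m * V := (Nat.div_lt_iff_lt_mul hV).1 hm
    have h2 : l ≤ V := by
      have h3 : b / m < V := by
        rw [Nat.div_lt_iff_lt_mul hm0]
        calc b ≤ k := hbk
          _ < m * V := h1
          _ = V * m := mul_comm _ _
      omega
    rw [VAU_al_zero V l h2]
    simp
  obtain ⟨I, hI⟩ : ∃ I : ℕ, I = Nat.log 2 k + 1 := ⟨_, rfl⟩
  have hbig : k < U * 2 ^ I := by
    have h1 : k < 2 ^ I := by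
      rw [hI]
      exact Nat.lt_pow_succ_log_self (by norm_num) k
    calc k < 2 ^ I := h1
      _ = 1 * 2 ^ I := (one_mul _).symm
      _ ≤ U * 2 ^ I := Nat.mul_le_mul_right _ hU
  have hsum : ∑ m ∈ Ioc U (k / V), f m = ∑ m ∈ Ioc U (U * 2 ^ I), f m := by
    refine Finset.sum_subset ?_ ?_
    · intro m hm
      rw [Finset.mem_Ioc] at hm ⊢
      have := Nat.div_le_self k V
      omega
    · intro m _ hm2
      rw [Finset.mem_Ioc] at hm2
      by_cases hmU : U < m
      · exact hzero m (by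
          by_contra hh
          exact hm2 ⟨hmU, by omega⟩)
      · exfalso
        rename_i hm1
        rw [Finset.mem_Ioc] at hm1
        omega
  have hblock : ∀ i < I, ‖∑ m ∈ Ioc (U * 2 ^ i) (2 * (U * 2 ^ i)), f m‖ ≤ E := by
    intro i _
    by_cases hM : U * 2 ^ i ≤ k / V
    · have hMR : ((U * 2 ^ i : ℕ) : ℝ) ≤ ((k / V : ℕ) : ℝ) := by exact_mod_cast hM
      have hM1 : (k : ℝ) ^ (1 / 4 : ℝ) ≤ ((U * 2 ^ i : ℕ) : ℝ) := by
        refine hkU.trans ?_
        have : U ≤ U * 2 ^ i := Nat.le_mul_of_pos_right _ (pow_pos (by norm_num) i)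
        exact_mod_cast this
      have h1 := h k (U * 2 ^ i) a b x (fun m => ArithmeticFunction.vonMangoldt m) (fun l => al V l)
        hk hM1 (hMR.trans hkV) hab hbk hkx hxA ?_ (fun l => VAU_al_le V l)
      · rw [hE, hf]
        exact h1
      · intro m hm
        rw [Finset.mem_Ioc] at hm
        rw [abs_of_nonneg ArithmeticFunction.vonMangoldt_nonneg]
        refine ArithmeticFunction.vonMangoldt_le_log.trans ?_
        have h2 : m ≤ 2 * k := by
          have := Nat.div_le_self k V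
          omega
        have h3 : (m : ℝ) ≤ 2 * k := by exact_mod_cast h2
        have h4 : (0 : ℝ) < m := by
          have : 0 < m := by omega
          exact_mod_cast this
        calc Real.log m ≤ Real.log (2 * k) := Real.log_le_log h4 h3
          _ = Real.log 2 + Real.log k := Real.log_mul (by norm_num) hkpos.ne'
          _ ≤ 2 * Real.log k := by linarith
    · rw [Finset.sum_eq_zero]
      · simpa using hE0
      · intro m hm
        rw [Finset.mem_Ioc] at hm
        exact hzero m (by omega)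
  have hfin := VAU_dyadic f U I E hblock
  rw [← hsum] at hfin
  have hIle : (I : ℝ) ≤ 2 * (1 + Real.log k) := by
    have h1 : ((Nat.log 2 k : ℕ) : ℝ) ≤ Real.logb 2 k := by
      have := Real.natLog_le_logb k 2
      exact_mod_cast this
    have h2 : Real.logb 2 k ≤ 2 * Real.log k := by
      unfold Real.logb
      rw [div_le_iff₀ (by linarith)]
      nlinarith
    rw [hI]
    push_cast
    linarith
  have hgoal : ‖∑ m ∈ Ioc U (k / V), f m‖ ≤ 2 * (1 + Real.log k) * E :=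
    hfin.trans (mul_le_mul_of_nonneg_right hIle hE0)
  rw [hf] at hgoal
  refine hgoal.trans (le_of_eq ?_)
  rw [hE]
  ring

end Pool.Agent.DFO
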